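import Mathlib
import Pool.Agent.V1185.SP.Odo

/-!
# MP_fd85b0_pr, Q1: the divisible sandpile stabilizes at the third-moment endpoint
-/

open MeasureTheory ProbabilityTheory Filter
open scoped ENNReal

namespace Pool.Agent.Results.MP_fd85b0_pr.ThirdMoment

open Pool.Agent.V1185.SP

variable {V : Type*} (G : SimpleGraph V) [G.LocallyFinite]

/-- The configuration `σ_n` of parallel toppling started from `σ`. -/
noncomputable def conf (σ : V → ℝ) : ℕ → V → ℝ
  | 0 => σ
  | n + 1 => fun v => min (conf σ n v) 1 +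
      ∑ w ∈ G.neighborFinset v, max (conf σ n w - 1) 0 / (G.degree w : ℝ)

/-- The odometer `u_n` of parallel toppling started from `σ`. -/
noncomputable def odo (σ : V → ℝ) : ℕ → V → ℝ
  | 0 => fun _ => 0
  | n + 1 => fun v => odo σ n v + max (conf G σ n v - 1) 0 / (G.degree v : ℝ)

/-- The configuration `σ` stabilizes: the limit of the odometers is finite at every vertex. -/
def Stabilizes (σ : V → ℝ) : Prop :=
  ∀ v, ⨆ n, ENNReal.ofReal (odo G σ n v) < ∞

variable {G}

theorem odo_nonneg (σ : V → ℝ) (n : ℕ) (v : V) : 0 ≤ odo G σ n v := by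
  induction n with
  | zero => exact le_rfl
  | succ n ih =>
    simp only [odo]
    have : 0 ≤ max (conf G σ n v - 1) 0 / (G.degree v : ℝ) :=
      div_nonneg (le_max_right _ _) (by positivity)
    linarith

theorem conf_eq (hd : ∀ v, 0 < G.degree v) (σ : V → ℝ) (n : ℕ) (v : V) :
    conf G σ n v = σ v + ∑ w ∈ G.neighborFinset v, odo G σ n w - G.degree v * odo G σ n v := by
  induction n generalizing v with
  | zero => simp [conf, odo]
  | succ n ih =>
    have hdv : (G.degree v : ℝ) ≠ 0 := by exact_mod_cast (hd v).ne'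
    simp only [conf, odo]
    rw [Finset.sum_add_distrib, mul_add, mul_div_cancel₀ _ hdv]
    have h1 : min (conf G σ n v) 1 = conf G σ n v - max (conf G σ n v - 1) 0 := by
      rcases le_total (conf G σ n v) 1 with h | h
      · rw [min_eq_left h, max_eq_right (by linarith)]; ring
      · rw [min_eq_right h, max_eq_left (by linarith)]; ring
    rw [h1]
    have h2 := ih v
    linarith

theorem odo_succ (hd : ∀ v, 0 < G.degree v) (σ : V → ℝ) (n : ℕ) (v : V) :
    odo G σ (n + 1) v = max (odo G σ n v) ((σ v - 1) / G.degree v + av G (odo G σ n) v) := by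
  have hdv : (0:ℝ) < (G.degree v : ℝ) := by exact_mod_cast hd v
  have h1 : odo G σ (n + 1) v =
      max (odo G σ n v) (odo G σ n v + (conf G σ n v - 1) / (G.degree v : ℝ)) := by
    simp only [odo]
    rcases le_total (conf G σ n v - 1) 0 with h | h
    · rw [max_eq_right h, zero_div, add_zero, max_eq_left]
      have : (conf G σ n v - 1) / (G.degree v : ℝ) ≤ 0 := div_nonpos_of_nonpos_of_nonneg h hdv.le
      linarith
    · rw [max_eq_left h, max_eq_right]
      have : 0 ≤ (conf G σ n v - 1) / (G.degree v : ℝ) := div_nonneg h hdv.le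
      linarith
  rw [h1, conf_eq hd]
  congr 1
  unfold av
  field_simp
  ring

/-- For every infinite connected graph of bounded degree and every i.i.d. family of initial masses
with mean less than `1` (possibly `-∞`) and `E (σ⁺)^3 < ∞`, the divisible sandpile stabilizes
almost surely. -/
theorem result {V : Type*} [Infinite V] (G : SimpleGraph V) [G.LocallyFinite]
    (hG : G.Connected) (hdeg : ∃ D : ℕ, ∀ v, G.degree v ≤ D)
    {Ω : Type*} [MeasurableSpace Ω] (P : Measure Ω) [IsProbabilityMeasure P]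
    (σ : V → Ω → ℝ) (hm : ∀ v, Measurable (σ v)) (hind : iIndepFun σ P)
    (hid : ∀ v w, IdentDistrib (σ v) (σ w) P P)
    (hmean : ∀ v, ∫⁻ ω, ENNReal.ofReal (σ v ω) ∂P < 1 + ∫⁻ ω, ENNReal.ofReal (-σ v ω) ∂P)
    (hmom : ∀ v, ∫⁻ ω, ENNReal.ofReal (σ v ω) ^ 3 ∂P < ∞) :
    ∀ᵐ ω ∂P, Stabilizes G (fun v => σ v ω) := by
  obtain ⟨D, hD⟩ := hdeg
  have hd : ∀ v, 0 < G.degree v := fun v => hG.preconnected.degree_pos_of_nontrivial v
  obtain ⟨o⟩ : Nonempty V := inferInstance
  -- truncation level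
  obtain ⟨A, hA⟩ : ∃ A : ℕ, ∫⁻ ω, ENNReal.ofReal (σ o ω) ∂P <
      1 + ∫⁻ ω, ENNReal.ofReal (min (-σ o ω) A) ∂P := by
    have h1 : ∫⁻ ω, ENNReal.ofReal (-σ o ω) ∂P =
        ⨆ A : ℕ, ∫⁻ ω, ENNReal.ofReal (min (-σ o ω) A) ∂P := by
      rw [← lintegral_iSup]
      · congr 1
        funext ω
        apply le_antisymm
        · obtain ⟨A, hA⟩ := exists_nat_ge (-σ o ω)
          refine le_trans (le_of_eq ?_) (le_iSup (fun A : ℕ => ENNReal.ofReal (min (-σ o ω) A)) A)
          rw [min_eq_left hA]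
        · exact iSup_le fun A => ENNReal.ofReal_le_ofReal (min_le_left _ _)
      · intro A
        have := hm o
        fun_prop
      · intro A B hAB ω
        apply ENNReal.ofReal_le_ofReal
        apply min_le_min le_rfl
        exact_mod_cast hAB
    have h2 := hmean o
    rw [h1, ENNReal.add_iSup] at h2
    exact lt_iSup_iff.1 h2
  set x : Ω → ℝ := fun ω => max (σ o ω) 0 with hx
  have hx0 : ∀ ω, 0 ≤ x ω := fun ω => le_max_right _ _
  have hxm : Measurable x := (hm o).max measurable_const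
  have hx3 : Integrable (fun ω => x ω ^ 3) P := by
    refine ⟨(hxm.pow_const 3).aestronglyMeasurable, ?_⟩
    rw [hasFiniteIntegral_iff_enorm]
    refine lt_of_le_of_lt (le_of_eq ?_) (hmom o)
    congr 1
    funext ω
    rw [Real.enorm_eq_ofReal (pow_nonneg (hx0 ω) 3), ENNReal.ofReal_pow (hx0 ω)]
    simp [hx, ENNReal.ofReal_max]
  have hx1 : Integrable x P := by
    refine Integrable.mono' ((integrable_const (1:ℝ)).add hx3) hxm.aestronglyMeasurable
      (Eventually.of_forall fun ω => ?_)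
    rw [Real.norm_eq_abs, abs_of_nonneg (hx0 ω)]
    simp only [Pi.add_apply]
    rcases le_total (x ω) 1 with h | h
    · have := pow_nonneg (hx0 ω) 3
      linarith
    · have := le_self_pow₀ h (by norm_num : 3 ≠ 0)
      linarith
  -- the truncated excess
  set ζ : V → Ω → ℝ := fun v ω => max (σ v ω) (-A) - 1 with hζ
  have hgm : Measurable fun z : ℝ => max z (-(A:ℝ)) - 1 := by fun_prop
  have hζm : ∀ v, Measurable (ζ v) := fun v => hgm.comp (hm v)
  have hζi : iIndepFun ζ P := hind.comp (fun _ z => max z (-(A:ℝ)) - 1) fun _ => hgm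
  have hζid : ∀ y, IdentDistrib (ζ y) (ζ o) P P := fun y => (hid y o).comp hgm
  have hA0 : (0:ℝ) ≤ A := by positivity
  have hζabs : ∀ ω, |ζ o ω| ≤ x ω + (A + 1) := by
    intro ω
    have h1 := hx0 ω
    have h2 : σ o ω ≤ x ω := le_max_left _ _
    rw [abs_le]
    constructor
    · have : -(A:ℝ) ≤ max (σ o ω) (-A) := le_max_right _ _
      simp only [hζ]; linarith
    · have : max (σ o ω) (-(A:ℝ)) ≤ x ω := max_le h2 (by linarith)
      simp only [hζ]; linarith
  have h1 : Integrable (ζ o) P :=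
    Integrable.mono' (hx1.add (integrable_const ((A:ℝ) + 1))) (hζm o).aestronglyMeasurable
      (Eventually.of_forall fun ω => by simpa [Real.norm_eq_abs] using hζabs ω)
  have h2 : Integrable (fun ω => ζ o ω ^ 2) P := by
    refine Integrable.mono' ((hx3.const_mul 2).add (integrable_const (2 + 2 * ((A:ℝ) + 1) ^ 2)))
      ((hζm o).pow_const 2).aestronglyMeasurable (Eventually.of_forall fun ω => ?_)
    rw [Real.norm_eq_abs, abs_of_nonneg (sq_nonneg _)]
    have e1 : ζ o ω ^ 2 ≤ (x ω + (A + 1)) ^ 2 := sq_le_sq' (by have := abs_le.1 (hζabs ω); linarith)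
      (abs_le.1 (hζabs ω)).2
    have e2 : x ω ^ 2 ≤ 1 + x ω ^ 3 := by
      have := hx0 ω
      rcases le_total (x ω) 1 with h | h
      · have h3 := pow_nonneg (hx0 ω) 3
        nlinarith
      · nlinarith [pow_nonneg (hx0 ω) 2]
    simp only [Pi.add_apply]
    nlinarith [sq_nonneg (x ω - (A + 1))]
  have h3 : Integrable (fun ω => max (ζ o ω) 0 ^ 3) P := by
    refine Integrable.mono' hx3 (((hζm o).max measurable_const).pow_const 3).aestronglyMeasurable
      (Eventually.of_forall fun ω => ?_)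
    have h0 : 0 ≤ max (ζ o ω) 0 := le_max_right _ _
    rw [Real.norm_eq_abs, abs_of_nonneg (pow_nonneg h0 3)]
    have : max (ζ o ω) 0 ≤ x ω := by
      apply max_le _ (hx0 ω)
      have e1 : σ o ω ≤ x ω := le_max_left _ _
      have : max (σ o ω) (-(A:ℝ)) ≤ x ω := max_le e1 (by linarith [hx0 ω])
      simp only [hζ]; linarith
    gcongr
  -- the mean
  set t : Ω → ℝ := fun ω => max (min (-σ o ω) A) 0 with ht
  have ht0 : ∀ ω, 0 ≤ t ω := fun ω => le_max_right _ _
  have htm : Measurable t := by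
    have := hm o
    simp only [ht]
    fun_prop
  have htI : Integrable t P := by
    refine Integrable.mono' (integrable_const (A:ℝ)) htm.aestronglyMeasurable
      (Eventually.of_forall fun ω => ?_)
    rw [Real.norm_eq_abs, abs_of_nonneg (ht0 ω)]
    exact max_le (min_le_right _ _) hA0
  have hζt : ∀ ω, ζ o ω = x ω - t ω - 1 := by
    intro ω
    simp only [hζ, hx, ht]
    congr 1
    rcases le_total (σ o ω) 0 with h | h
    · rw [max_eq_right h]
      rcases le_total (-σ o ω) A with h' | h'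
      · rw [min_eq_left h', max_eq_left (by linarith), max_eq_left (by linarith)]; ring
      · rw [min_eq_right h', max_eq_left hA0, max_eq_right (by linarith)]; ring
    · rw [max_eq_left h, max_eq_left (by linarith : -(A:ℝ) ≤ σ o ω)]
      have : min (-σ o ω) (A:ℝ) ≤ 0 := (min_le_left _ _).trans (by linarith)
      rw [max_eq_right this]; ring
  have hEx : ∫⁻ ω, ENNReal.ofReal (σ o ω) ∂P = ENNReal.ofReal (∫ ω, x ω ∂P) := by
    rw [ofReal_integral_eq_lintegral_ofReal hx1 (Eventually.of_forall hx0)]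
    congr 1
    funext ω
    simp [hx, ENNReal.ofReal_max]
  have hEt : ∫⁻ ω, ENNReal.ofReal (min (-σ o ω) A) ∂P = ENNReal.ofReal (∫ ω, t ω ∂P) := by
    rw [ofReal_integral_eq_lintegral_ofReal htI (Eventually.of_forall ht0)]
    congr 1
    funext ω
    simp only [ht]
    rw [ENNReal.ofReal_max]
    simp
  have hlt : ∫ ω, x ω ∂P < 1 + ∫ ω, t ω ∂P := by
    have ht1 : 0 ≤ ∫ ω, t ω ∂P := integral_nonneg ht0
    rw [hEx, hEt, ← ENNReal.ofReal_one, ← ENNReal.ofReal_add zero_le_one ht1] at hA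
    exact (ENNReal.ofReal_lt_ofReal_iff (by linarith)).1 hA
  have hmeanζ : ∫ ω, ζ o ω ∂P = ∫ ω, x ω ∂P - ∫ ω, t ω ∂P - 1 := by
    have e1 : ∫ ω, ζ o ω ∂P = ∫ ω, ((x ω - t ω) - 1) ∂P :=
      integral_congr_ae (Eventually.of_forall hζt)
    have e2 : ∫ ω, ((x ω - t ω) - 1) ∂P = ∫ ω, (x ω - t ω) ∂P - ∫ _, (1:ℝ) ∂P :=
      integral_sub (hx1.sub htI) (integrable_const _)
    have e3 := integral_sub hx1 htI
    rw [e1, e2, e3]
    simp
  have hfin := UU_ae_finite (P := P) hG hd hD hζm hζi hζid h3 h2 h1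
    (δ := 1 + ∫ ω, t ω ∂P - ∫ ω, x ω ∂P) (by linarith) (by rw [hmeanζ]; ring)
  filter_upwards [hfin] with ω hω
  obtain ⟨M, hM⟩ := hω
  have hs := odo_succ hd (fun v => σ v ω)
  have ho : ∃ M, ∀ n, odo G (fun v => σ v ω) n o ≤ M := by
    refine ⟨M, fun n => le_trans ?_ (hM n)⟩
    refine odo_le_UU (ξ := fun v => (σ v ω - 1) / G.degree v) (fun v => ?_) (fun v => rfl) hs n o
    have hdv : (0:ℝ) < G.degree v := by exact_mod_cast hd v
    have : σ v ω - 1 ≤ ζ v ω := by
      have : σ v ω ≤ max (σ v ω) (-A) := le_max_left _ _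
      simp only [hζ]; linarith
    gcongr
  intro v
  obtain ⟨M', hM'⟩ := odo_spread hG hd (ξ := fun v => (σ v ω - 1) / G.degree v)
    (odo_nonneg (G := G) (fun v => σ v ω)) hs ho v
  refine lt_of_le_of_lt (iSup_le fun n => ?_) (ENNReal.ofReal_lt_top (r := M'))
  exact ENNReal.ofReal_le_ofReal (hM' n)

end Pool.Agent.Results.MP_fd85b0_pr.ThirdMoment
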